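import Mathlib
import Pool.Agent.H326R2.Pyth
import Pool.Agent.H326R2.SFour

/-!
The equation `x ^ (2 p) + y ^ (2 q) = w ^ 2`, `x` even: a first-case criterion (`q` prime to `x`).
-/

namespace Pool.Agent.TH944.Beal

open Pool.Agent.H326R2

lemma cop_odd {u : ℤ} (hu : Odd u) (n : ℕ) : IsCoprime ((2 : ℤ) ^ n) u := by
  apply IsCoprime.pow_left
  obtain ⟨j, hj⟩ := hu
  exact ⟨-j, 1, by rw [hj]; ring⟩

/-- Second descent step. -/
lemma level_two (p q : ℕ) (hp : Odd p) (hq : Odd q) (A B C D : ℤ)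
    (hA0 : A ≠ 0) (hB0 : B ≠ 0) (hC : Odd C) (hD : Odd D) (hCD : IsCoprime C D)
    (h2q : IsCoprime (2 : ℤ) (q : ℤ)) (hAq : IsCoprime A (q : ℤ)) (hBq : IsCoprime B (q : ℤ))
    (hsum : C ^ q + D ^ q = 2 * A ^ p) (hdiff : C ^ q - D ^ q = 2 ^ p * B ^ p) :
    ∃ e f g k : ℤ, C - D = 2 ^ p * e ^ p ∧ C + D = 2 * k ^ p ∧
      cof q C D = f ^ p ∧ cof q C (-D) = g ^ p := by
  -- difference
  have hne1 : C ^ q - D ^ q ≠ 0 := by
    rw [hdiff]; exact mul_ne_zero (pow_ne_zero _ two_ne_zero) (pow_ne_zero _ hB0)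
  have hd1 : (C - D) * cof q C D = 2 ^ p * B ^ p := by rw [sub_mul_cof, hdiff]
  have hc1 : IsCoprime (C - D) (q : ℤ) := by
    have : IsCoprime ((2 : ℤ) ^ p * B ^ p) (q : ℤ) := (h2q.pow_left).mul_left hBq.pow_left
    rw [← hd1] at this
    exact this.of_mul_left_left
  have hc2 := coprime_sub_cof q C D hCD hc1 hne1
  have hodd1 : Odd (cof q C D) := cof_odd q hq C D hC hD
  have hc3 : IsCoprime ((2 : ℤ) ^ p) (cof q C D) := cop_odd hodd1 p
  obtain ⟨w, hw⟩ : (2 : ℤ) ^ p ∣ C - D := hc3.dvd_of_dvd_mul_right ⟨B ^ p, hd1⟩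
  have hd2 : w * cof q C D = B ^ p := by
    rw [hw] at hd1
    have h5 : (2 : ℤ) ^ p * (w * cof q C D) = 2 ^ p * B ^ p := by rw [← hd1]; ring
    exact mul_left_cancel₀ (pow_ne_zero _ two_ne_zero) h5
  have hc4 : IsCoprime w (cof q C D) := by
    rw [hw] at hc2
    exact hc2.of_mul_left_right
  obtain ⟨e, f, he, hf, -⟩ := split_pow hc4 hp hd2
  -- sum
  have hne2 : C ^ q - (-D) ^ q ≠ 0 := by
    rw [hq.neg_pow, sub_neg_eq_add, hsum]
    exact mul_ne_zero two_ne_zero (pow_ne_zero _ hA0)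
  have hd3 : (C - -D) * cof q C (-D) = 2 * A ^ p := by
    rw [sub_mul_cof, hq.neg_pow, sub_neg_eq_add, hsum]
  have hc5 : IsCoprime (C - -D) (q : ℤ) := by
    have : IsCoprime ((2 : ℤ) * A ^ p) (q : ℤ) := h2q.mul_left hAq.pow_left
    rw [← hd3] at this
    exact this.of_mul_left_left
  have hc6 := coprime_sub_cof q C (-D) hCD.neg_right hc5 hne2
  obtain ⟨K, hK⟩ : Even (C - -D) := by rw [sub_neg_eq_add]; exact hC.add_odd hD
  have hK2 : C - -D = 2 * K := by rw [hK]; ring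
  have hd4 : K * cof q C (-D) = A ^ p := by
    have : 2 * (K * cof q C (-D)) = 2 * A ^ p := by rw [← hd3, hK2]; ring
    exact mul_left_cancel₀ two_ne_zero this
  have hc7 : IsCoprime K (cof q C (-D)) := by
    rw [hK2] at hc6
    exact hc6.of_mul_left_right
  obtain ⟨k, g, hk, hg, -⟩ := split_pow hc7 hp hd4
  refine ⟨e, f, g, k, by rw [hw, he], ?_, hf, hg⟩
  rw [← hk, ← hK2]; ring

/-- The criterion for `x ^ (2 p) + y ^ (2 q) = w ^ 2`. -/
theorem main_two (p q t : ℕ) (hp : Odd p) (hq : Odd q) (ht : t.Prime) (ht2 : t ≠ 2)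
    (haux : Aux 2 p q t)
    (x y w : ℤ) (hx : Even x) (hxq : IsCoprime x (q : ℤ)) (hxy : IsCoprime x y)
    (h : (x ^ p) ^ 2 + (y ^ q) ^ 2 = w ^ 2) : False := by
  have hx0 : x ≠ 0 := by
    rintro rfl
    rw [isCoprime_zero_left] at hxq
    have hq1 : q = 1 := by
      have := Int.isUnit_iff.1 hxq
      omega
    subst hq1
    exact haux.1 1 (by simp)
  have hp0 : 0 < p := hp.pos
  have hq0 : 0 < q := hq.pos
  have hp1 : p ≠ 1 := by
    rintro rfl
    exact haux.1 q (by simp)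
  have hp3 : 3 ≤ p := by
    obtain ⟨j, rfl⟩ := hp
    omega
  obtain ⟨A, B, y', hy', hA, hAB, hxAB, hy, -, hcop⟩ := param p q hp hq x y w hx hxy h
  have hA0 : A ≠ 0 := by rintro rfl; exact hx0 (by rw [hxAB]; ring)
  have hB0 : B ≠ 0 := by rintro rfl; exact hx0 (by rw [hxAB]; ring)
  rw [hxAB] at hxq
  have h2q : IsCoprime (2 : ℤ) (q : ℤ) := hxq.of_mul_left_left
  have hAq : IsCoprime A (q : ℤ) := hxq.of_mul_left_right.of_mul_left_left
  have hBq : IsCoprime B (q : ℤ) := hxq.of_mul_left_right.of_mul_left_right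
  set m : ℤ := A ^ p with hm
  set n : ℤ := 2 ^ (p - 1) * B ^ p with hn
  have hmodd : Odd m := hA.pow
  have hneven : Even n := by
    rw [hn]
    exact (Int.even_pow.2 ⟨even_two, by omega⟩).mul_right _
  have ho1 : Odd (m + n) := hmodd.add_even hneven
  have ho2 : Odd (m - n) := hmodd.sub_even hneven
  have hc : IsCoprime (m + n) (m - n) := by
    apply isCoprime_of_prime_dvd
    · rintro ⟨h1, _⟩
      rw [h1] at ho1
      exact absurd ho1 (by decide)
    · intro l hl h1 h2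
      have h3 : l ∣ 2 * m := by
        have := dvd_add h1 h2
        have e : m + n + (m - n) = 2 * m := by ring
        rwa [e] at this
      have h4 : l ∣ 2 * n := by
        have := dvd_sub h1 h2
        have e : m + n - (m - n) = 2 * n := by ring
        rwa [e] at this
      have hl2 : ¬ l ∣ 2 := by
        intro hl2
        have h5 : IsCoprime (2 : ℤ) (m + n) := by
          have := cop_odd ho1 1
          rwa [pow_one] at this
        exact hl.not_isUnit (h5.isUnit_of_dvd' hl2 h1)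
      have h5 : l ∣ m := (hl.dvd_or_dvd h3).resolve_left hl2
      have h6 : l ∣ n := (hl.dvd_or_dvd h4).resolve_left hl2
      exact hl.not_isUnit (hcop.isUnit_of_dvd' h5 h6)
  obtain ⟨C, D, hC, hD, -⟩ := split_pow hc hq (c := y') (by rw [hy]; ring)
  have hCodd : Odd C := by rw [hC] at ho1; exact (Int.odd_pow' hq0.ne').1 ho1
  have hDodd : Odd D := by rw [hD] at ho2; exact (Int.odd_pow' hq0.ne').1 ho2
  have hCD : IsCoprime C D := by
    rw [hC, hD] at hc
    exact (IsCoprime.pow_iff hq0 hq0).1 hc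
  have hpp : p - 1 + 1 = p := by omega
  have hsum : C ^ q + D ^ q = 2 * A ^ p := by rw [← hC, ← hD, ← hm]; ring
  have hdiff : C ^ q - D ^ q = 2 ^ p * B ^ p := by
    rw [← hC, ← hD]
    have : (2 : ℤ) ^ p = 2 * 2 ^ (p - 1) := by
      conv_lhs => rw [← hpp, pow_succ']
    rw [this, hn]; ring
  obtain ⟨e, f, g, k, h1, h2, hf, hg⟩ :=
    level_two p q hp hq A B C D hA0 hB0 hCodd hDodd hCD h2q hAq hBq hsum hdiff
  have : Fact t.Prime := ⟨ht⟩
  have two_ne : (2 : ZMod t) ≠ 0 := two_ne_zero' ht2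
  have cast := fun (a b : ℤ) (h : a = b) => congrArg (Int.cast : ℤ → ZMod t) h
  have g1 : 2 * C ^ q = 2 * A ^ p + (2 * B) ^ p := by
    rw [mul_pow]; linear_combination hsum + hdiff
  have g2 : 2 * D ^ q = 2 * A ^ p - (2 * B) ^ p := by
    rw [mul_pow]; linear_combination hsum - hdiff
  have g3 : 2 * C = 2 * k ^ p + (2 * e) ^ p := by
    rw [mul_pow]; linear_combination h1 + h2
  have g4 : 2 * D = 2 * k ^ p - (2 * e) ^ p := by
    rw [mul_pow]; linear_combination h2 - h1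
  refine local_key (M := 2) (t := t) ht2 (by exact_mod_cast two_ne) hp hq haux
    (A : ZMod t) ((2 * B : ℤ) : ZMod t) C D ((2 * e : ℤ) : ZMod t) f g k
    ((cof q C D : ℤ) : ZMod t) ((cof q C (-D) : ℤ) : ZMod t) ?_ ?_ ?_ ?_ ?_ ?_ ?_ ?_ ?_
  · rintro ⟨hA', hB'⟩
    push_cast at hB'
    have hB'' : ((B : ℤ) : ZMod t) = 0 := (mul_eq_zero.1 hB').resolve_left two_ne
    rw [ZMod.intCast_zmod_eq_zero_iff_dvd] at hA' hB''
    have hu := hAB.isUnit_of_dvd' hA' hB''
    have h2 := ht.two_le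
    have : ((t : ℕ) : ℤ) = 1 ∨ ((t : ℕ) : ℤ) = -1 := Int.isUnit_iff.1 hu
    omega
  · exact_mod_cast cast _ _ g1
  · exact_mod_cast cast _ _ g2
  · exact_mod_cast cast _ _ g3
  · exact_mod_cast cast _ _ g4
  · intro hCD
    exact cof_cast_self q C D hCD
  · exact_mod_cast cast _ _ hf
  · intro hCD
    have h1 := cof_cast_self (t := t) q C (-D) (by push_cast; exact hCD)
    rw [h1, hCD]; push_cast; rfl
  · exact_mod_cast cast _ _ hg

end Pool.Agent.TH944.Beal
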