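import Mathlib
import Pool.Agent.H213R3.TabG

/-!
A fast Boolean check of the auxiliary conditions `Pool.Agent.H326R2.Aux M p q t`, using Euler's
criterion: the nonzero `p`-th powers modulo the prime `t = p e + 1` are the `e` powers of an element
`h` of order `e`, and they satisfy `ξ ^ e = 1`.
-/

namespace Pool.Agent.TH944.Beal

open Pool.Agent.H326R2

/-- one value of `d` -/
def chkD (M q t e c1 c2 d : ℕ) : Bool :=
  (fun x y => (fun s f => (!(Nat.beq s 0) && !(Nat.beq (s ^ e % t) c1)) ||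
    (!(Nat.beq f 0) && !(Nat.beq (f ^ e % t) c2))) ((x + y) % t) ((x + (t - y)) % t))
    ((M + d) ^ q % t) ((M + (t - d)) ^ q % t)

/-- all values `d, d h, d h ^ 2, ...` -/
def chkLoop (M q t e h c1 c2 : ℕ) : ℕ → ℕ → Bool
  | 0, _ => true
  | n + 1, d => chkD M q t e c1 c2 d && chkLoop M q t e h c1 c2 n (d * h % t)

/-- `d, d h, ..., d h ^ (n - 1)` are not `1` -/
def ordLoop (t h : ℕ) : ℕ → ℕ → Bool
  | 0, _ => true
  | n + 1, d => !(Nat.beq d 1) && ordLoop t h n (d * h % t)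

/-- check of `Aux M p q t` with `t = p e + 1` -/
def chkQ (M t e h : ℕ) (q : ℕ) : Bool :=
  !(Nat.beq (q % t) 0) && !(Nat.beq ((q % t) ^ e % t) 1) &&
    chkLoop M q t e h ((2 * M * (M ^ (q - 1) % t)) ^ e % t) ((2 * (M ^ (q - 1) % t)) ^ e % t) e 1

/-- check of `t` and `h` -/
def chkH (p t e h : ℕ) : Bool :=
  chkPrime t && !(Nat.beq t 2) && Nat.beq (p * e + 1) t && !(Nat.beq e 0) &&
    Nat.beq (h ^ e % t) 1 && ordLoop t h (e - 1) (h % t)

lemma chkLoop_sound (M q t e h c1 c2 : ℕ) (ht : 1 < t) (n : ℕ) :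
    ∀ d, d < t → chkLoop M q t e h c1 c2 n d = true →
      ∀ i < n, ∃ d', d' < t ∧ (d' : ZMod t) = d * (h : ZMod t) ^ i ∧
        chkD M q t e c1 c2 d' = true := by
  induction n with
  | zero => intro d _ _ i hi; omega
  | succ n ih =>
    intro d hd hloop i hi
    unfold chkLoop at hloop
    rw [Bool.and_eq_true] at hloop
    rcases Nat.eq_zero_or_pos i with rfl | hi0
    · exact ⟨d, hd, by simp, hloop.1⟩
    · obtain ⟨d', h1, h2, h3⟩ := ih (d * h % t) (Nat.mod_lt _ (by omega)) hloop.2 (i - 1) (by omega)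
      refine ⟨d', h1, ?_, h3⟩
      rw [h2, ZMod.natCast_mod, Nat.cast_mul, mul_assoc, ← pow_succ']
      congr 3
      omega

lemma ordLoop_sound (t h : ℕ) (ht : 1 < t) (n : ℕ) :
    ∀ d, d < t → ordLoop t h n d = true →
      ∀ i < n, (d : ZMod t) * (h : ZMod t) ^ i ≠ 1 := by
  induction n with
  | zero => intro d _ _ i hi; omega
  | succ n ih =>
    intro d hd hloop i hi
    unfold ordLoop at hloop
    rw [Bool.and_eq_true] at hloop
    rcases Nat.eq_zero_or_pos i with rfl | hi0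
    · rw [pow_zero, mul_one]
      intro h1
      have h2 : d = 1 := by
        have h3 : ((d : ℕ) : ZMod t) = ((1 : ℕ) : ZMod t) := by rw [h1]; simp
        rw [ZMod.natCast_eq_natCast_iff', Nat.mod_eq_of_lt hd, Nat.mod_eq_of_lt ht] at h3
        exact h3
      rw [h2] at hloop
      simp at hloop
    · have h1 := ih (d * h % t) (Nat.mod_lt _ (by omega)) hloop.2 (i - 1) (by omega)
      rw [ZMod.natCast_mod, Nat.cast_mul, mul_assoc, ← pow_succ'] at h1
      have h2 : i - 1 + 1 = i := by omega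
      rwa [h2] at h1

lemma chkH_sound {p t e h : ℕ} (hc : chkH p t e h = true) :
    t.Prime ∧ t ≠ 2 ∧ p * e + 1 = t ∧ 0 < e ∧ IsPrimitiveRoot (h : ZMod t) e := by
  unfold chkH at hc
  simp only [Bool.and_eq_true, Bool.not_eq_true'] at hc
  obtain ⟨⟨⟨⟨⟨h1, h2⟩, h3⟩, h4⟩, h5⟩, h6⟩ := hc
  have hpr := chkPrime_sound h1
  have h2' : t ≠ 2 := by
    rintro rfl
    simp at h2
  have h4' : e ≠ 0 := by
    rintro rfl
    simp at h4
  refine ⟨hpr, h2', Nat.eq_of_beq_eq_true h3, by omega, ?_⟩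
  apply IsPrimitiveRoot.mk_of_lt _ (by omega)
  · have h7 : ((h ^ e % t : ℕ) : ZMod t) = ((1 : ℕ) : ZMod t) := by
      rw [Nat.eq_of_beq_eq_true h5]
    rw [ZMod.natCast_mod, Nat.cast_pow, Nat.cast_one] at h7
    exact h7
  · intro l hl0 hle
    have h8 := ordLoop_sound t h hpr.one_lt (e - 1) (h % t) (Nat.mod_lt _ hpr.pos) h6 (l - 1)
      (by omega)
    rw [ZMod.natCast_mod, ← pow_succ'] at h8
    have h9 : l - 1 + 1 = l := by omega
    rwa [h9] at h8

/-- Soundness of the check. -/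
theorem chk_sound {M p q t e h : ℕ} (hp : p ≠ 0) (hH : chkH p t e h = true)
    (hQ : chkQ M t e h q = true) : Aux M p q t := by
  obtain ⟨ht, ht2, hpe, he, hprim⟩ := chkH_sound hH
  have : Fact t.Prime := ⟨ht⟩
  unfold chkQ at hQ
  simp only [Bool.and_eq_true, Bool.not_eq_true'] at hQ
  obtain ⟨⟨h1, h2⟩, h3⟩ := hQ
  have euler : ∀ a : ZMod t, a ≠ 0 → (a ^ p) ^ e = 1 := by
    intro a ha
    have h4 := ZMod.pow_card_sub_one_eq_one ha
    have h5 : t - 1 = p * e := by omega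
    rwa [h5, pow_mul] at h4
  constructor
  · intro a ha
    have h5 : (q : ZMod t) ≠ 0 := by
      intro h6
      rw [ZMod.natCast_eq_zero_iff] at h6
      rw [Nat.mod_eq_zero_of_dvd h6] at h1
      simp at h1
    have ha0 : a ≠ 0 := by
      rintro rfl
      rw [zero_pow hp] at ha
      exact h5 ha.symm
    have h6 := euler a ha0
    rw [ha] at h6
    have h7 : ((q % t) ^ e % t) = 1 := by
      have h8 : (((q % t) ^ e % t : ℕ) : ZMod t) = ((1 : ℕ) : ZMod t) := by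
        rw [ZMod.natCast_mod, Nat.cast_pow, ZMod.natCast_mod, h6]; simp
      rw [ZMod.natCast_eq_natCast_iff', Nat.mod_mod, Nat.mod_eq_of_lt ht.one_lt] at h8
      exact h8
    rw [h7] at h2
    simp at h2
  · rintro a b c d hc hd ⟨r1, r2⟩
    set ξ : ZMod t := (d / c) ^ p with hξ
    set α : ZMod t := (a / c ^ q) ^ p with hα
    set β : ZMod t := (b / c ^ q) ^ p with hβ
    have hξe : ξ ^ e = 1 := euler _ (div_ne_zero hd hc)
    have : NeZero e := ⟨he.ne'⟩
    obtain ⟨i, hi, hi2⟩ := hprim.eq_pow_of_pow_eq_one hξe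
    obtain ⟨d', hd1, hd2, hd3⟩ := chkLoop_sound M q t e h _ _ ht.one_lt e 1 ht.one_lt h3 i hi
    have hdξ : (d' : ZMod t) = ξ := by rw [hd2, Nat.cast_one, one_mul, hi2]
    have hcp : c ^ p ≠ 0 := pow_ne_zero _ hc
    have hcpq : (c ^ p) ^ q ≠ 0 := pow_ne_zero _ hcp
    have e1 : d ^ p = ξ * c ^ p := by rw [hξ, div_pow, div_mul_cancel₀ _ hcp]
    have hcq : (c ^ q) ^ p = (c ^ p) ^ q := by rw [← pow_mul, ← pow_mul, mul_comm]
    have e2 : a ^ p = α * (c ^ p) ^ q := by rw [hα, div_pow, hcq, div_mul_cancel₀ _ hcpq]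
    have e3 : b ^ p = β * (c ^ p) ^ q := by rw [hβ, div_pow, hcq, div_mul_cancel₀ _ hcpq]
    have f1 : ((M : ZMod t) + ξ) ^ q = (M : ZMod t) ^ (q - 1) * ((M : ZMod t) * α + β) := by
      apply mul_right_cancel₀ hcpq
      rw [← mul_pow]
      calc (((M : ZMod t) + ξ) * c ^ p) ^ q = ((M : ZMod t) * c ^ p + d ^ p) ^ q := by
            rw [e1]; ring
        _ = _ := by rw [r1, e2, e3]; ring
    have f2 : ((M : ZMod t) - ξ) ^ q = (M : ZMod t) ^ (q - 1) * ((M : ZMod t) * α - β) := by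
      apply mul_right_cancel₀ hcpq
      rw [← mul_pow]
      calc (((M : ZMod t) - ξ) * c ^ p) ^ q = ((M : ZMod t) * c ^ p - d ^ p) ^ q := by
            rw [e1]; ring
        _ = _ := by rw [r2, e2, e3]; ring
    unfold chkD at hd3
    simp only [Bool.or_eq_true, Bool.and_eq_true, Bool.not_eq_true'] at hd3
    set x := (M + d') ^ q % t with hx
    set y := (M + (t - d')) ^ q % t with hy
    have hyt : y < t := Nat.mod_lt _ ht.pos
    have cx : (x : ZMod t) = (M : ZMod t) ^ (q - 1) * ((M : ZMod t) * α + β) := by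
      rw [hx, ZMod.natCast_mod, ← f1]
      push_cast
      rw [hdξ]
    have cy : (y : ZMod t) = (M : ZMod t) ^ (q - 1) * ((M : ZMod t) * α - β) := by
      rw [hy, ZMod.natCast_mod, ← f2]
      push_cast [Nat.cast_sub hd1.le]
      rw [hdξ, ZMod.natCast_self]
      congr 1
      ring
    have cs : (((x + y) % t : ℕ) : ZMod t) = 2 * M * (M : ZMod t) ^ (q - 1) * α := by
      rw [ZMod.natCast_mod, Nat.cast_add, cx, cy]; ring
    have cf : (((x + (t - y)) % t : ℕ) : ZMod t) = 2 * (M : ZMod t) ^ (q - 1) * β := by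
      rw [ZMod.natCast_mod, Nat.cast_add, Nat.cast_sub hyt.le, ZMod.natCast_self, cx, cy]; ring
    have fin : ∀ (s c : ℕ) (K z w : ZMod t), s < t → (s : ZMod t) = K * z → z = w ^ p →
        (c : ZMod t) = K → Nat.beq s 0 = false → Nat.beq (s ^ e % t) (c ^ e % t) = false →
        False := by
      intro s c K z w hst hs hz hcK hs0 hse
      by_cases hw : w = 0
      · rw [hz, hw, zero_pow hp, mul_zero] at hs
        have : s = 0 := by
          rw [ZMod.natCast_eq_zero_iff] at hs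
          exact Nat.eq_zero_of_dvd_of_lt hs hst
        rw [this] at hs0
        simp at hs0
      · have h4 : ((s ^ e : ℕ) : ZMod t) = ((c ^ e : ℕ) : ZMod t) := by
          rw [Nat.cast_pow, Nat.cast_pow, hs, hcK, mul_pow, hz, euler w hw, mul_one]
        rw [ZMod.natCast_eq_natCast_iff'] at h4
        rw [h4] at hse
        simp at hse
    have ctM : ((2 * M * (M ^ (q - 1) % t) : ℕ) : ZMod t) = 2 * M * (M : ZMod t) ^ (q - 1) := by
      push_cast [ZMod.natCast_mod]; ring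
    have ct : ((2 * (M ^ (q - 1) % t) : ℕ) : ZMod t) = 2 * (M : ZMod t) ^ (q - 1) := by
      push_cast [ZMod.natCast_mod]; ring
    rcases hd3 with ⟨g1, g2⟩ | ⟨g1, g2⟩
    · exact fin _ _ _ _ _ (Nat.mod_lt _ ht.pos) cs hα ctM g1 g2
    · exact fin _ _ _ _ _ (Nat.mod_lt _ ht.pos) cf hβ ct g1 g2

/-- check of an entry `(p, t, h, Q)` -/
def chkRow (M : ℕ) (r : ℕ × ℕ × ℕ × List ℕ) : Bool :=
  !(Nat.beq r.1 0) && chkH r.1 r.2.1 ((r.2.1 - 1) / r.1) r.2.2.1 &&
    r.2.2.2.all (fun q => chkQ M r.2.1 ((r.2.1 - 1) / r.1) r.2.2.1 q)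

lemma chkRow_sound {M : ℕ} {r : ℕ × ℕ × ℕ × List ℕ} (h : chkRow M r = true) (q : ℕ)
    (hq : q ∈ r.2.2.2) : r.2.1.Prime ∧ r.2.1 ≠ 2 ∧ Aux M r.1 q r.2.1 := by
  unfold chkRow at h
  simp only [Bool.and_eq_true, Bool.not_eq_true', List.all_eq_true] at h
  obtain ⟨⟨h1, h2⟩, h3⟩ := h
  have hp : r.1 ≠ 0 := by
    intro h4
    rw [h4] at h1
    simp at h1
  obtain ⟨ht, ht2, -, -, -⟩ := chkH_sound h2
  exact ⟨ht, ht2, chk_sound hp h2 (h3 q hq)⟩

/-- the table covers all pairs of different primes of a list outside `exc` -/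
def covBy (L : List ℕ) (tab : List (ℕ × ℕ × ℕ × List ℕ)) (exc : List (ℕ × ℕ)) : Bool :=
  L.all fun p => L.all fun q =>
    Nat.beq p q || exc.any (fun e => Nat.beq e.1 p && Nat.beq e.2 q) ||
      tab.any (fun e => Nat.beq e.1 p && memb q e.2.2.2)

lemma covBy_sound {M : ℕ} {L : List ℕ} {tab : List (ℕ × ℕ × ℕ × List ℕ)} {exc : List (ℕ × ℕ)}
    (hok : tab.all (chkRow M) = true) (hcov : covBy L tab exc = true)
    (p q : ℕ) (hp : p ∈ L) (hq : q ∈ L) (hpq : p ≠ q) (hexc : (p, q) ∉ exc) :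
    ∃ t : ℕ, t.Prime ∧ t ≠ 2 ∧ Aux M p q t := by
  unfold covBy at hcov
  simp only [List.all_eq_true, Bool.or_eq_true, List.any_eq_true, Bool.and_eq_true] at hcov
  rcases hcov p hp q hq with (h | h) | h
  · exact absurd (Nat.eq_of_beq_eq_true h) hpq
  · exfalso
    obtain ⟨e, he, h1, h2⟩ := h
    apply hexc
    rw [← Nat.eq_of_beq_eq_true h1, ← Nat.eq_of_beq_eq_true h2]
    exact he
  · obtain ⟨e, he, h1, h2⟩ := h
    rw [List.all_eq_true] at hok
    obtain ⟨h3, h4, h5⟩ := chkRow_sound (hok e he) q (mem_of_memb h2)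
    exact ⟨e.2.1, h3, h4, Nat.eq_of_beq_eq_true h1 ▸ h5⟩

end Pool.Agent.TH944.Beal
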